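import Pool.Agent.X194.QH.Main

/-!
MP_9c76b4_al, Q1: the answer is **no**.  There are Hausdorff abelian topological groups `G`, `H`
and an open continuous surjective homomorphism `f : G → H` such that no section of `f` is a
quasihomomorphism.
-/

namespace Pool.Agent.Results.MP_9c76b4_al.NoQuasiHomSection

open Pool.Agent.X194.QH

theorem result :
    ∃ (G H : Type) (_ : CommGroup G) (_ : CommGroup H) (_ : TopologicalSpace G)
      (_ : TopologicalSpace H) (_ : IsTopologicalGroup G) (_ : IsTopologicalGroup H)
      (_ : T2Space G) (_ : T2Space H) (f : G →* H),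
      Continuous f ∧ IsOpenMap f ∧ Function.Surjective f ∧
      ∀ t : H → G, (∀ h, f (t h) = h) → ¬ IsQuasiHom t := by
  refine ⟨Multiplicative G0, Multiplicative H0, inferInstance, inferInstance, inferInstance,
    inferInstance, inferInstance, inferInstance, inferInstanceAs (T2Space G0),
    inferInstanceAs (T2Space H0), f1, f0_cont, f0_open, f0_surj, no_section⟩

end Pool.Agent.Results.MP_9c76b4_al.NoQuasiHomSection
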